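import Mathlib
import Pool.Agent.VM.StmtsW

/-!
# LSA: the large sieve inequality from the mean value theorem
-/

set_option autoImplicit false

namespace Pool.Agent.VM.H76

open Pool.Agent.Helper69_Weyl (ee ee_add ee_int ee_zero)
open Pool.Agent.VM

/-- the moduli of the grid -/
def Mo (k K : ℕ) : Fin k → ℕ := fun j => (2 * tri k + 1) * K ^ ((j : ℕ) + 1)

/-- the number of the box -/
noncomputable def bo {k : ℕ} (M : Fin k → ℕ) (θ : Fin k → ℝ) : Fin k → ℕ :=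
  fun j => (⌊θ j * (M j : ℝ)⌋ % (M j : ℤ)).toNat

/-- the shift of the linear coordinate -/
def sh {k : ℕ} (κ : ℕ) (M : Fin k → ℕ) (l : ℕ) (b : Fin k → ℕ) : Fin k → ℕ :=
  fun j => if (j : ℕ) = 0 then (b j + l * κ) % M j else b j

/-- the norm of the exponential sum at the grid point -/
noncomputable def Fn {k : ℕ} (K : ℕ) (M : Fin k → ℕ) (b : Fin k → ℕ) : ℝ :=
  ‖∑ x ∈ Finset.Icc (1 : ℤ) (K : ℤ),
    ee (∑ j : Fin k, (b j : ℝ) * (x : ℝ) ^ ((j : ℕ) + 1) / (M j : ℝ))‖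

theorem bo_one (M : ℕ) (hM : 0 < M) (x : ℝ) :
    (⌊x * (M : ℝ)⌋ % (M : ℤ)).toNat < M ∧
    ∃ n : ℤ, x = ((⌊x * (M : ℝ)⌋ % (M : ℤ)).toNat : ℝ) / (M : ℝ) +
      Int.fract (x * (M : ℝ)) / (M : ℝ) + n := by
  have hM' : (0 : ℤ) < (M : ℤ) := by exact_mod_cast hM
  have hMr : (0 : ℝ) < (M : ℝ) := by exact_mod_cast hM
  have h0 : 0 ≤ ⌊x * (M : ℝ)⌋ % (M : ℤ) := Int.emod_nonneg _ hM'.ne'
  have h1 : ⌊x * (M : ℝ)⌋ % (M : ℤ) < M := Int.emod_lt_of_pos _ hM'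
  have h2 : (((⌊x * (M : ℝ)⌋ % (M : ℤ)).toNat : ℕ) : ℤ) = ⌊x * (M : ℝ)⌋ % (M : ℤ) :=
    Int.toNat_of_nonneg h0
  refine ⟨by omega, ⌊x * (M : ℝ)⌋ / (M : ℤ), ?_⟩
  have h3 : (((⌊x * (M : ℝ)⌋ % (M : ℤ)).toNat : ℕ) : ℝ) = ((⌊x * (M : ℝ)⌋ % (M : ℤ) : ℤ) : ℝ) := by
    exact_mod_cast h2
  have h4 : (M : ℤ) * (⌊x * (M : ℝ)⌋ / (M : ℤ)) + ⌊x * (M : ℝ)⌋ % (M : ℤ) = ⌊x * (M : ℝ)⌋ :=
    Int.mul_ediv_add_emod _ _
  have h5 : (M : ℝ) * ((⌊x * (M : ℝ)⌋ / (M : ℤ) : ℤ) : ℝ) +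
      ((⌊x * (M : ℝ)⌋ % (M : ℤ) : ℤ) : ℝ) = ((⌊x * (M : ℝ)⌋ : ℤ) : ℝ) := by exact_mod_cast h4
  have h6 : ((⌊x * (M : ℝ)⌋ : ℤ) : ℝ) + Int.fract (x * (M : ℝ)) = x * (M : ℝ) :=
    Int.floor_add_fract _
  rw [h3]
  field_simp
  linarith

theorem Mo_pos (k K : ℕ) (hK : 1 ≤ K) (j : Fin k) : 0 < Mo k K j := by
  unfold Mo
  positivity

theorem Mo_ge (k K : ℕ) (j : Fin k) : K ^ ((j : ℕ) + 1) ≤ Mo k K j := by
  unfold Mo
  nlinarith [Nat.zero_le (2 * tri k * K ^ ((j : ℕ) + 1))]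

/-- the sum over the natural numbers is the sum over the integers -/
theorem sum_int (K : ℕ) (f : ℤ → ℂ) :
    ∑ m ∈ Finset.Icc 1 K, f (m : ℤ) = ∑ x ∈ Finset.Icc (1 : ℤ) (K : ℤ), f x := by
  refine Finset.sum_bij (fun (m : ℕ) _ => (m : ℤ)) ?_ ?_ ?_ ?_
  · intro m hm
    rw [Finset.mem_Icc] at hm ⊢
    constructor
    · exact_mod_cast hm.1
    · exact_mod_cast hm.2
  · intro a _ b _ h
    exact_mod_cast h
  · intro x hx
    rw [Finset.mem_Icc] at hx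
    refine ⟨x.toNat, ?_, ?_⟩
    · rw [Finset.mem_Icc]
      omega
    · omega
  · intro m _
    rfl

/-- the shift of the linear coordinate by `l / K` stays in the grid -/
theorem Fn_sh (k K : ℕ) (hk : 1 ≤ k) (hK : 1 ≤ K) (l : ℕ) (b : Fin k → ℕ) :
    ‖∑ m ∈ Finset.Icc 1 K,
      ee (∑ j : Fin k, (b j : ℝ) / (Mo k K j : ℝ) * (m : ℝ) ^ ((j : ℕ) + 1)) *
        ee ((l : ℝ) * (m : ℝ) / (K : ℝ))‖ =
      Fn K (Mo k K) (sh (2 * tri k + 1) (Mo k K) l b) := by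
  have hKr : (0 : ℝ) < (K : ℝ) := by exact_mod_cast hK
  unfold Fn
  rw [← sum_int K (fun x => ee (∑ j : Fin k,
    ((sh (2 * tri k + 1) (Mo k K) l b) j : ℝ) * (x : ℝ) ^ ((j : ℕ) + 1) / (Mo k K j : ℝ)))]
  congr 1
  refine Finset.sum_congr rfl ?_
  intro m _
  obtain ⟨k', rfl⟩ : ∃ k', k = k' + 1 := ⟨k - 1, by omega⟩
  rw [← ee_add]
  have hM0 : (Mo (k' + 1) K 0 : ℝ) = (2 * tri (k' + 1) + 1) * (K : ℝ) := by
    unfold Mo
    push_cast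
    simp
  have hκ : (0 : ℝ) < 2 * (tri (k' + 1) : ℝ) + 1 := by positivity
  set t : ℕ := (b 0 + l * (2 * tri (k' + 1) + 1)) / Mo (k' + 1) K 0 with ht
  have h1 : (Mo (k' + 1) K 0 : ℝ) * (t : ℝ) +
      ((sh (2 * tri (k' + 1) + 1) (Mo (k' + 1) K) l b) 0 : ℝ) =
      (b 0 : ℝ) + l * (2 * tri (k' + 1) + 1) := by
    have := Nat.div_add_mod (b 0 + l * (2 * tri (k' + 1) + 1)) (Mo (k' + 1) K 0)
    unfold sh
    rw [if_pos (by simp)]
    exact_mod_cast this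
  have h2 : ∀ i : Fin k', (sh (2 * tri (k' + 1) + 1) (Mo (k' + 1) K) l b) i.succ = b i.succ := by
    intro i
    unfold sh
    rw [if_neg (by simp)]
  rw [Fin.sum_univ_succ, Fin.sum_univ_succ]
  have h3 : (∑ i : Fin k', (b i.succ : ℝ) / (Mo (k' + 1) K i.succ : ℝ) *
      (m : ℝ) ^ ((i.succ : ℕ) + 1)) =
      ∑ i : Fin k', ((sh (2 * tri (k' + 1) + 1) (Mo (k' + 1) K) l b) i.succ : ℝ) *
        (((m : ℤ) : ℝ)) ^ ((i.succ : ℕ) + 1) / (Mo (k' + 1) K i.succ : ℝ) := by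
    refine Finset.sum_congr rfl ?_
    intro i _
    rw [h2]
    push_cast
    ring
  rw [h3]
  have hM0' : (0 : ℝ) < (Mo (k' + 1) K 0 : ℝ) := by exact_mod_cast Mo_pos (k' + 1) K hK 0
  have h4 : (b 0 : ℝ) / (Mo (k' + 1) K 0 : ℝ) * (m : ℝ) ^ (((0 : Fin (k' + 1)) : ℕ) + 1) +
      (l : ℝ) * (m : ℝ) / (K : ℝ) =
      ((sh (2 * tri (k' + 1) + 1) (Mo (k' + 1) K) l b) 0 : ℝ) *
        (((m : ℤ) : ℝ)) ^ (((0 : Fin (k' + 1)) : ℕ) + 1) / (Mo (k' + 1) K 0 : ℝ) +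
        (((t * m : ℕ) : ℤ) : ℝ) := by
    have h5 : ((sh (2 * tri (k' + 1) + 1) (Mo (k' + 1) K) l b) 0 : ℝ) =
      (b 0 : ℝ) + l * (2 * tri (k' + 1) + 1) - (Mo (k' + 1) K 0 : ℝ) * (t : ℝ) := by linarith
    have h6 : (l : ℝ) * (m : ℝ) / (K : ℝ) =
        (l * (2 * tri (k' + 1) + 1) : ℝ) * m / (Mo (k' + 1) K 0 : ℝ) := by
      rw [hM0]
      field_simp
    rw [h5, h6]
    push_cast
    simp only [Fin.val_zero, zero_add, pow_one]
    field_simp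
    ring
  have h7 : ∀ A B C D E : ℝ, A + C = D + E → A + B + C = D + B + E := by
    intro A B C D E h
    linarith
  rw [h7 _ _ _ _ _ h4, ee_add, ee_int, mul_one]

/-- the bound at one point -/
theorem point (k K : ℕ) (hk : 1 ≤ k) (hK : 1 ≤ K) (abl : AblStmt) (ω : ℕ → ℕ → ℝ)
    (hω : ∀ K l, 0 ≤ ω K l)
    (hc : ∀ (K lo h : ℕ) (c : ℕ → ℂ), 1 ≤ K → 1 ≤ lo → h ≤ K →
      ‖∑ m ∈ Finset.Icc lo h, c m‖ ≤ ∑ l ∈ Finset.range K, ω K l *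
        ‖∑ m ∈ Finset.Icc 1 K, c m * ee ((l : ℝ) * (m : ℝ) / (K : ℝ))‖)
    (θ : Fin k → ℝ) (lo hi : ℕ) (hlo : 1 ≤ lo) (hhi : hi ≤ K) :
    ‖∑ m ∈ Finset.Icc lo hi, ee (∑ j, θ j * (m : ℝ) ^ ((j : ℕ) + 1))‖ ≤
      (1 + 7 * (k : ℝ)) * ∑ l ∈ Finset.range K, ω K l *
        Fn K (Mo k K) (sh (2 * tri k + 1) (Mo k K) l (bo (Mo k K) θ)) := by
  have hpos : 0 ≤ (1 + 7 * (k : ℝ)) * ∑ l ∈ Finset.range K, ω K l *
        Fn K (Mo k K) (sh (2 * tri k + 1) (Mo k K) l (bo (Mo k K) θ)) := by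
    refine mul_nonneg (by positivity) (Finset.sum_nonneg ?_)
    intro l _
    exact mul_nonneg (hω K l) (norm_nonneg _)
  by_cases hle : lo ≤ hi
  swap
  · rw [Finset.Icc_eq_empty (by omega)]
    simpa using hpos
  have hbo := fun j => bo_one (Mo k K j) (Mo_pos k K hK j) (θ j)
  choose hb n hn using hbo
  have hKr : (0 : ℝ) < (K : ℝ) := by exact_mod_cast hK
  have hτ : ∀ j : Fin k, |Int.fract (θ j * (Mo k K j : ℝ)) / (Mo k K j : ℝ)| ≤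
      1 / (K : ℝ) ^ ((j : ℕ) + 1) := by
    intro j
    have h1 : (0 : ℝ) ≤ Int.fract (θ j * (Mo k K j : ℝ)) := Int.fract_nonneg _
    have h2 : Int.fract (θ j * (Mo k K j : ℝ)) ≤ 1 := (Int.fract_lt_one _).le
    have h3 : (0 : ℝ) < (Mo k K j : ℝ) := by exact_mod_cast Mo_pos k K hK j
    have h4 : (K : ℝ) ^ ((j : ℕ) + 1) ≤ (Mo k K j : ℝ) := by exact_mod_cast Mo_ge k K j
    rw [abs_of_nonneg (by positivity)]
    exact div_le_div₀ (by norm_num) h2 (by positivity) h4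
  have habl := abl k K lo hi (fun m => ee (∑ j : Fin k, (bo (Mo k K) θ j : ℝ) / (Mo k K j : ℝ) *
    (m : ℝ) ^ ((j : ℕ) + 1))) (fun j => Int.fract (θ j * (Mo k K j : ℝ)) / (Mo k K j : ℝ))
    hK hlo hle hhi hτ
  obtain ⟨h, hh1, hh2, hh3⟩ := habl
  have e1 : ∑ m ∈ Finset.Icc lo hi, ee (∑ j, θ j * (m : ℝ) ^ ((j : ℕ) + 1)) =
      ∑ m ∈ Finset.Icc lo hi, (fun m : ℕ => ee (∑ j : Fin k, (bo (Mo k K) θ j : ℝ) /
        (Mo k K j : ℝ) * (m : ℝ) ^ ((j : ℕ) + 1))) m *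
        ee (∑ j, (fun j => Int.fract (θ j * (Mo k K j : ℝ)) / (Mo k K j : ℝ)) j *
          (m : ℝ) ^ ((j : ℕ) + 1)) := by
    refine Finset.sum_congr rfl ?_
    intro m _
    beta_reduce
    rw [← ee_add]
    have e2 : ∑ j, θ j * (m : ℝ) ^ ((j : ℕ) + 1) =
        (∑ j : Fin k, (bo (Mo k K) θ j : ℝ) / (Mo k K j : ℝ) * (m : ℝ) ^ ((j : ℕ) + 1) +
        ∑ j, Int.fract (θ j * (Mo k K j : ℝ)) / (Mo k K j : ℝ) * (m : ℝ) ^ ((j : ℕ) + 1)) +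
        ((∑ j, n j * (m : ℤ) ^ ((j : ℕ) + 1) : ℤ) : ℝ) := by
      push_cast
      rw [← Finset.sum_add_distrib, ← Finset.sum_add_distrib]
      refine Finset.sum_congr rfl ?_
      intro j _
      have e3 : θ j = (bo (Mo k K) θ j : ℝ) / (Mo k K j : ℝ) +
        Int.fract (θ j * (Mo k K j : ℝ)) / (Mo k K j : ℝ) + n j := hn j
      calc θ j * (m : ℝ) ^ ((j : ℕ) + 1) = ((bo (Mo k K) θ j : ℝ) / (Mo k K j : ℝ) +
        Int.fract (θ j * (Mo k K j : ℝ)) / (Mo k K j : ℝ) + n j) * (m : ℝ) ^ ((j : ℕ) + 1) := by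
            rw [← e3]
        _ = _ := by ring
    rw [e2, ee_add, ee_int, mul_one]
  rw [e1]
  refine hh3.trans (mul_le_mul_of_nonneg_left ?_ (by positivity))
  refine (hc K lo h _ hK hlo (by omega)).trans (le_of_eq ?_)
  refine Finset.sum_congr rfl ?_
  intro l _
  rw [Fn_sh k K hk hK l]

/-- points in the same box are close -/
theorem close (k K : ℕ) (hK : 1 ≤ K) (l : ℕ) (θ θ' : Fin k → ℝ)
    (h : sh (2 * tri k + 1) (Mo k K) l (bo (Mo k K) θ) =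
      sh (2 * tri k + 1) (Mo k K) l (bo (Mo k K) θ')) :
    ∀ j : Fin k, Nr (θ j - θ' j) (1 / (K : ℝ) ^ ((j : ℕ) + 1)) := by
  intro j
  obtain ⟨hb, n, hn⟩ := bo_one (Mo k K j) (Mo_pos k K hK j) (θ j)
  obtain ⟨hb', n', hn'⟩ := bo_one (Mo k K j) (Mo_pos k K hK j) (θ' j)
  have hj : bo (Mo k K) θ j = bo (Mo k K) θ' j := by
    have h1 := congrFun h j
    unfold sh at h1
    by_cases h0 : (j : ℕ) = 0
    · rw [if_pos h0, if_pos h0] at h1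
      have h2 : bo (Mo k K) θ j ≡ bo (Mo k K) θ' j [MOD Mo k K j] :=
        Nat.ModEq.add_right_cancel' _ h1
      exact Nat.ModEq.eq_of_lt_of_lt h2 hb hb'
    · rwa [if_neg h0, if_neg h0] at h1
  have hj' : ((⌊θ j * (Mo k K j : ℝ)⌋ % (Mo k K j : ℤ)).toNat : ℝ) =
      ((⌊θ' j * (Mo k K j : ℝ)⌋ % (Mo k K j : ℤ)).toNat : ℝ) := by
    exact_mod_cast hj
  have hKr : (0 : ℝ) < (K : ℝ) := by exact_mod_cast hK
  have h1 : (0 : ℝ) ≤ Int.fract (θ j * (Mo k K j : ℝ)) := Int.fract_nonneg _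
  have h2 : Int.fract (θ j * (Mo k K j : ℝ)) ≤ 1 := (Int.fract_lt_one _).le
  have h1' : (0 : ℝ) ≤ Int.fract (θ' j * (Mo k K j : ℝ)) := Int.fract_nonneg _
  have h2' : Int.fract (θ' j * (Mo k K j : ℝ)) ≤ 1 := (Int.fract_lt_one _).le
  have h3 : (0 : ℝ) < (Mo k K j : ℝ) := by exact_mod_cast Mo_pos k K hK j
  have h4 : (K : ℝ) ^ ((j : ℕ) + 1) ≤ (Mo k K j : ℝ) := by exact_mod_cast Mo_ge k K j
  refine ⟨n - n', ?_⟩
  have h5 : θ j - θ' j - ((n - n' : ℤ) : ℝ) =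
      (Int.fract (θ j * (Mo k K j : ℝ)) - Int.fract (θ' j * (Mo k K j : ℝ))) /
        (Mo k K j : ℝ) := by
    have e1 : θ j - θ' j - ((n - n' : ℤ) : ℝ) = (θ j - n) - (θ' j - n') := by
      push_cast
      ring
    have e2 : θ j - n = ((⌊θ j * (Mo k K j : ℝ)⌋ % (Mo k K j : ℤ)).toNat : ℝ) / (Mo k K j : ℝ) +
      Int.fract (θ j * (Mo k K j : ℝ)) / (Mo k K j : ℝ) := by linarith
    have e3 : θ' j - n' = ((⌊θ' j * (Mo k K j : ℝ)⌋ % (Mo k K j : ℤ)).toNat : ℝ) /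
      (Mo k K j : ℝ) + Int.fract (θ' j * (Mo k K j : ℝ)) / (Mo k K j : ℝ) := by linarith
    rw [e1, e2, e3, hj']
    ring
  rw [h5, abs_div, abs_of_pos h3]
  refine div_le_div₀ (by norm_num) ?_ (by positivity) h4
  rw [abs_le]
  constructor <;> linarith

theorem tri_pos (k : ℕ) (hk : 1 ≤ k) : 1 ≤ tri k := by
  unfold tri
  rw [Nat.le_div_iff_mul_le (by norm_num)]
  nlinarith

theorem tri_sum (k : ℕ) : ∑ j : Fin k, ((j : ℕ) + 1) = tri k := by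
  rw [Fin.sum_univ_eq_sum_range (fun j => j + 1) k]
  unfold tri
  have h : ∀ k : ℕ, 2 * ∑ j ∈ Finset.range k, (j + 1) = k * (k + 1) := by
    intro k
    induction k with
    | zero => rfl
    | succ k ih =>
      rw [Finset.sum_range_succ, mul_add, ih]
      ring
  have := h k
  omega

theorem prod_Mo (k K : ℕ) :
    ∏ j : Fin k, (Mo k K j : ℝ) = (2 * (tri k : ℝ) + 1) ^ k * (K : ℝ) ^ tri k := by
  unfold Mo
  push_cast
  rw [Finset.prod_mul_distrib, Finset.prod_const, Finset.card_univ, Fintype.card_fin,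
    Finset.prod_pow_eq_pow_sum, tri_sum]

theorem lsa (k : ℕ) (hk : 1 ≤ k) (vm : VmvtStmt k) (abl : AblStmt) (cmp : CmpStmt)
    (hmu : HmuStmt) (jeq : JeqStmt) (grd : GrdStmt) : LsaStmt k := by
  intro ε hε
  obtain ⟨ω, hω, hωs, hc⟩ := cmp
  have hr := tri_pos k hk
  have hrr : (1 : ℝ) ≤ (tri k : ℝ) := by exact_mod_cast hr
  obtain ⟨Cv, hCv, hv⟩ := vm (ε / 2) (by positivity)
  obtain ⟨Cw, hCw, hw⟩ := hωs (ε / (4 * (tri k : ℝ))) (by positivity)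
  refine ⟨((1 + 7 * (k : ℝ)) * Cw) ^ (2 * tri k) * ((2 * (tri k : ℝ) + 1) ^ k * Cv),
    by positivity, ?_⟩
  intro K hK P θ lo hi hlo hhi
  have hKr : (0 : ℝ) < (K : ℝ) := by exact_mod_cast hK
  obtain ⟨E, hE⟩ : ∃ E : ℝ, E = (Nat.card {v : (ℕ × ℤ) × (ℕ × ℤ) // v.1 ∈ P ∧ v.2 ∈ P ∧
          ∀ j : Fin k, Nr (θ v.1 j - θ v.2 j) (1 / (K : ℝ) ^ ((j : ℕ) + 1))} : ℝ) := ⟨_, rfl⟩
  rw [← hE]
  have hE0 : 0 ≤ E := by
    rw [hE]
    positivity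
  -- the second moment over the grid
  have hgrid : ∑ b ∈ Fintype.piFinset (fun j => Finset.range (Mo k K j)),
      Fn K (Mo k K) b ^ (2 * tri k) ≤
      (2 * (tri k : ℝ) + 1) ^ k * (K : ℝ) ^ tri k * (Cv * (K : ℝ) ^ ((tri k : ℝ) + ε / 2)) := by
    have h1 := grd (tri k) k K (Mo k K) (Mo_pos k K hK)
    have h2 := jeq (tri k) k K (Mo k K) (by
      intro j
      unfold Mo
      have : 0 < K ^ ((j : ℕ) + 1) := by positivity
      nlinarith)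
    unfold Fn
    rw [h1, h2, prod_Mo]
    exact mul_le_mul_of_nonneg_left (hv K) (by positivity)
  -- for every shift
  obtain ⟨A, hA⟩ : ∃ A : ℝ, A = (P.card : ℝ) ^ (2 * tri k - 2) * E *
      ((2 * (tri k : ℝ) + 1) ^ k * (K : ℝ) ^ tri k * (Cv * (K : ℝ) ^ ((tri k : ℝ) + ε / 2))) :=
    ⟨_, rfl⟩
  have hA0 : 0 ≤ A := by
    rw [hA]
    positivity
  have hsh : ∀ l : ℕ, (∑ p ∈ P, Fn K (Mo k K) (sh (2 * tri k + 1) (Mo k K) l
      (bo (Mo k K) (θ p)))) ^ (2 * tri k) ≤ A := by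
    intro l
    have h1 := hmu (ℕ × ℤ) (Fin k → ℕ) P (Fintype.piFinset (fun j => Finset.range (Mo k K j)))
      (fun p => sh (2 * tri k + 1) (Mo k K) l (bo (Mo k K) (θ p))) (Fn K (Mo k K)) (tri k) hr
      (fun x => norm_nonneg _) (by
        intro p _
        rw [Fintype.mem_piFinset]
        intro j
        rw [Finset.mem_range]
        have hb := (bo_one (Mo k K j) (Mo_pos k K hK j) (θ p j)).1
        unfold sh
        by_cases h0 : (j : ℕ) = 0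
        · rw [if_pos h0]
          exact Nat.mod_lt _ (Mo_pos k K hK j)
        · rw [if_neg h0]
          exact hb)
    refine h1.trans ?_
    rw [hA]
    have h2 : ((((P ×ˢ P).filter (fun v => sh (2 * tri k + 1) (Mo k K) l (bo (Mo k K) (θ v.1)) =
        sh (2 * tri k + 1) (Mo k K) l (bo (Mo k K) (θ v.2)))).card : ℕ) : ℝ) ≤ E := by
      rw [hE]
      have hfin : Finite {v : (ℕ × ℤ) × (ℕ × ℤ) // v.1 ∈ P ∧ v.2 ∈ P ∧
          ∀ j : Fin k, Nr (θ v.1 j - θ v.2 j) (1 / (K : ℝ) ^ ((j : ℕ) + 1))} := by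
        have : Set.Finite {v : (ℕ × ℤ) × (ℕ × ℤ) | v.1 ∈ P ∧ v.2 ∈ P ∧
          ∀ j : Fin k, Nr (θ v.1 j - θ v.2 j) (1 / (K : ℝ) ^ ((j : ℕ) + 1))} := by
          refine Set.Finite.subset (P ×ˢ P).finite_toSet ?_
          intro v hv
          rw [Finset.mem_coe, Finset.mem_product]
          exact ⟨hv.1, hv.2.1⟩
        exact this.to_subtype
      have h3 := Nat.card_le_card_of_injective
        (fun v : {v // v ∈ (P ×ˢ P).filter (fun v => sh (2 * tri k + 1) (Mo k K) l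
          (bo (Mo k K) (θ v.1)) = sh (2 * tri k + 1) (Mo k K) l (bo (Mo k K) (θ v.2)))} =>
          (⟨v.1, (Finset.mem_product.1 (Finset.mem_filter.1 v.2).1).1,
            (Finset.mem_product.1 (Finset.mem_filter.1 v.2).1).2,
            close k K hK l (θ v.1.1) (θ v.1.2) (Finset.mem_filter.1 v.2).2⟩ :
          {v : (ℕ × ℤ) × (ℕ × ℤ) // v.1 ∈ P ∧ v.2 ∈ P ∧
          ∀ j : Fin k, Nr (θ v.1 j - θ v.2 j) (1 / (K : ℝ) ^ ((j : ℕ) + 1))})) (by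
            intro a b hab
            have h5 := congrArg Subtype.val hab
            exact Subtype.ext h5)
      rw [Nat.card_eq_fintype_card, Fintype.card_coe] at h3
      exact_mod_cast h3
    have h4 : (0 : ℝ) ≤ (P.card : ℝ) ^ (2 * tri k - 2) := by positivity
    exact mul_le_mul (mul_le_mul_of_nonneg_left h2 h4) hgrid
      (Finset.sum_nonneg (fun b _ => pow_nonneg (norm_nonneg _) _)) (by positivity)
  -- the root
  obtain ⟨R, hR0, hR⟩ : ∃ R : ℝ, 0 ≤ R ∧ R ^ (2 * tri k) = A := by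
    refine ⟨A ^ (((2 * tri k : ℕ) : ℝ)⁻¹), Real.rpow_nonneg hA0 _, ?_⟩
    exact Real.rpow_inv_natCast_pow hA0 (by omega)
  have hsh' : ∀ l : ℕ, ∑ p ∈ P, Fn K (Mo k K) (sh (2 * tri k + 1) (Mo k K) l
      (bo (Mo k K) (θ p))) ≤ R := by
    intro l
    refine le_of_pow_le_pow_left₀ (n := 2 * tri k) (by omega) hR0 ?_
    rw [hR]
    exact hsh l
  have hsum : ∑ p ∈ P, ‖∑ m ∈ Finset.Icc (lo p) (hi p),
      ee (∑ j, θ p j * (m : ℝ) ^ ((j : ℕ) + 1))‖ ≤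
      (1 + 7 * (k : ℝ)) * (Cw * (K : ℝ) ^ (ε / (4 * (tri k : ℝ)))) * R := by
    calc ∑ p ∈ P, ‖∑ m ∈ Finset.Icc (lo p) (hi p),
          ee (∑ j, θ p j * (m : ℝ) ^ ((j : ℕ) + 1))‖
        ≤ ∑ p ∈ P, (1 + 7 * (k : ℝ)) * ∑ l ∈ Finset.range K, ω K l *
          Fn K (Mo k K) (sh (2 * tri k + 1) (Mo k K) l (bo (Mo k K) (θ p))) := by
            refine Finset.sum_le_sum ?_
            intro p hp
            exact point k K hk hK abl ω hω hc (θ p) (lo p) (hi p) (hlo p hp) (hhi p hp)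
      _ = (1 + 7 * (k : ℝ)) * ∑ l ∈ Finset.range K, ω K l * ∑ p ∈ P,
          Fn K (Mo k K) (sh (2 * tri k + 1) (Mo k K) l (bo (Mo k K) (θ p))) := by
            rw [← Finset.mul_sum, Finset.sum_comm]
            simp only [Finset.mul_sum]
      _ ≤ (1 + 7 * (k : ℝ)) * ∑ l ∈ Finset.range K, ω K l * R := by
            refine mul_le_mul_of_nonneg_left (Finset.sum_le_sum ?_) (by positivity)
            intro l _
            exact mul_le_mul_of_nonneg_left (hsh' l) (hω K l)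
      _ = (1 + 7 * (k : ℝ)) * (∑ l ∈ Finset.range K, ω K l) * R := by
            rw [← Finset.sum_mul]
            ring
      _ ≤ _ := by
            refine mul_le_mul_of_nonneg_right ?_ hR0
            exact mul_le_mul_of_nonneg_left (hw K hK) (by positivity)
  have hpow := pow_le_pow_left₀ (Finset.sum_nonneg (fun p _ => norm_nonneg _)) hsum (2 * tri k)
  refine hpow.trans (le_of_eq ?_)
  rw [mul_pow, hR, hA]
  have e1 : ((1 + 7 * (k : ℝ)) * (Cw * (K : ℝ) ^ (ε / (4 * (tri k : ℝ))))) ^ (2 * tri k) =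
      ((1 + 7 * (k : ℝ)) * Cw) ^ (2 * tri k) * (K : ℝ) ^ (ε / 2) := by
    rw [← mul_assoc, mul_pow, ← Real.rpow_natCast ((K : ℝ) ^ (ε / (4 * (tri k : ℝ)))),
      ← Real.rpow_mul hKr.le]
    congr 2
    push_cast
    field_simp
    ring
  have e2 : (K : ℝ) ^ (2 * (tri k : ℝ) + ε) =
      (K : ℝ) ^ (ε / 2) * (K : ℝ) ^ tri k * (K : ℝ) ^ ((tri k : ℝ) + ε / 2) := by
    rw [← Real.rpow_natCast (K : ℝ) (tri k), ← Real.rpow_add hKr, ← Real.rpow_add hKr]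
    congr 1
    ring
  rw [e1, e2]
  ring

end Pool.Agent.VM.H76
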